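import Mathlib

set_option autoImplicit false

/-! Auxiliary lemmas for task L1 of project H242-ES (written by helper782). -/

open MeasureTheory Set Filter Topology

namespace H782R3.ESL1

/-- derivative of the determinant -/
lemma det_deriv {κ : Type} [Fintype κ] [DecidableEq κ] (G H : Matrix κ κ ℝ) (hdet : IsUnit G.det) :
    HasDerivAt (fun t : ℝ => (G + t • H).det) (G.det * (G⁻¹ * H).trace) 0 := by
  have e : ∀ t : ℝ, (G + t • H).det = G.det * (1 + (G⁻¹ * H).trace * t +
      (Matrix.det (1 + (Polynomial.X : Polynomial ℝ) • (G⁻¹ * H).map Polynomial.C)).divX.divX.eval t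
        * t ^ 2) := by
    intro t
    rw [← Matrix.det_one_add_smul, ← Matrix.det_mul, mul_add, mul_one, Matrix.mul_smul,
      ← Matrix.mul_assoc, Matrix.mul_nonsing_inv _ hdet, one_mul]
  have e2 : (fun t : ℝ => (G + t • H).det) = fun t => G.det * (1 + (G⁻¹ * H).trace * t +
      (Matrix.det (1 + (Polynomial.X : Polynomial ℝ) • (G⁻¹ * H).map Polynomial.C)).divX.divX.eval t
        * t ^ 2) := funext e
  rw [e2]
  set P := (Matrix.det (1 + (Polynomial.X : Polynomial ℝ) • (G⁻¹ * H).map Polynomial.C)).divX.divX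
  have h1 : HasDerivAt (fun t : ℝ => P.eval t * t ^ 2) 0 0 := by
    have := (P.hasDerivAt 0).fun_mul (hasDerivAt_pow 2 (0:ℝ))
    simpa using this
  have h2 : HasDerivAt (fun t : ℝ => 1 + (G⁻¹ * H).trace * t) ((G⁻¹ * H).trace) 0 := by
    have := ((hasDerivAt_id (0:ℝ)).const_mul ((G⁻¹ * H).trace)).const_add 1
    simpa using this
  have h3 := (h2.fun_add h1).const_mul G.det
  rw [add_zero] at h3
  exact h3

/-- coercivity of a positive definite quadratic form -/
lemma coercive {κ : Type} [Fintype κ] (G : Matrix κ κ ℝ) (hG : G.PosDef) :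
    ∃ c : ℝ, 0 < c ∧ ∀ x : κ → ℝ, c * ∑ i, x i ^ 2 ≤ ∑ i, ∑ k, x i * G i k * x k := by
  classical
  set q : (κ → ℝ) → ℝ := fun x => ∑ i, ∑ k, x i * G i k * x k with hq
  have hqc : Continuous q := by
    rw [hq]; fun_prop
  have hpos : ∀ x : κ → ℝ, x ≠ 0 → 0 < q x := by
    intro x hx
    have := hG.dotProduct_mulVec_pos hx
    have e : q x = star x ⬝ᵥ (G.mulVec x) := by
      simp only [hq, dotProduct, Matrix.mulVec, Pi.star_apply, star_trivial, Finset.mul_sum]
      refine Finset.sum_congr rfl fun i _ => Finset.sum_congr rfl fun k _ => ?_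
      ring
    rw [e]; exact this
  by_cases h : ∃ x0 : κ → ℝ, x0 ≠ 0
  · obtain ⟨x0, hx0⟩ := h
    have hne : (Metric.sphere (0 : κ → ℝ) 1).Nonempty := by
      refine ⟨‖x0‖⁻¹ • x0, ?_⟩
      rw [mem_sphere_zero_iff_norm, norm_smul, norm_inv, norm_norm,
        inv_mul_cancel₀ (norm_ne_zero_iff.2 hx0)]
    obtain ⟨y, hy, hmin⟩ := (isCompact_sphere (0 : κ → ℝ) 1).exists_isMinOn hne hqc.continuousOn
    have hy0 : y ≠ 0 := by
      rintro rfl
      rw [mem_sphere_zero_iff_norm, norm_zero] at hy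
      exact zero_ne_one hy
    have hqy := hpos y hy0
    have hcard : 0 < (Fintype.card κ : ℝ) := by
      have : Nonempty κ := by
        by_contra hcon
        rw [not_nonempty_iff] at hcon
        exact hx0 (Subsingleton.elim _ _)
      exact_mod_cast Fintype.card_pos
    refine ⟨q y / Fintype.card κ, by positivity, fun x => ?_⟩
    have hN : ∑ i, x i ^ 2 ≤ Fintype.card κ * ‖x‖ ^ 2 := by
      calc ∑ i, x i ^ 2 ≤ ∑ _i : κ, ‖x‖ ^ 2 := by
            refine Finset.sum_le_sum fun i _ => ?_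
            have := norm_le_pi_norm x i
            rw [← Real.norm_of_nonneg (sq_nonneg (x i)), norm_pow]
            exact pow_le_pow_left₀ (norm_nonneg _) this 2
        _ = Fintype.card κ * ‖x‖ ^ 2 := by
            rw [Finset.sum_const, Finset.card_univ, nsmul_eq_mul]
    have hqx : q y * ‖x‖ ^ 2 ≤ q x := by
      rcases eq_or_ne x 0 with rfl | hx
      · simp [hq]
      · have hn : 0 < ‖x‖ := norm_pos_iff.2 hx
        have h1 : q y ≤ q (‖x‖⁻¹ • x) := hmin (by
          rw [mem_sphere_zero_iff_norm, norm_smul, norm_inv, norm_norm,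
            inv_mul_cancel₀ hn.ne'])
        have h2 : q (‖x‖⁻¹ • x) = ‖x‖⁻¹ ^ 2 * q x := by
          simp only [hq, Pi.smul_apply, smul_eq_mul, Finset.mul_sum]
          refine Finset.sum_congr rfl fun i _ => Finset.sum_congr rfl fun k _ => ?_
          ring
        rw [h2] at h1
        calc q y * ‖x‖ ^ 2 ≤ (‖x‖⁻¹ ^ 2 * q x) * ‖x‖ ^ 2 := by gcongr
          _ = q x := by field_simp
    calc q y / Fintype.card κ * ∑ i, x i ^ 2 ≤ q y / Fintype.card κ * (Fintype.card κ * ‖x‖ ^ 2) := by
          gcongr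
      _ = q y * ‖x‖ ^ 2 := by field_simp
      _ ≤ q x := hqx
  · push Not at h
    refine ⟨1, one_pos, fun x => ?_⟩
    rw [h x]
    simp

/-- Gaussian integrability -/
lemma integrable_gauss {κ : Type} [Fintype κ] {b : ℝ} (hb : 0 < b) :
    Integrable (fun x : κ → ℝ => Real.exp (-b * ∑ i, x i ^ 2)) := by
  have h := MeasureTheory.Integrable.fintype_prod (ι := κ) (f := fun _ (x : ℝ) => Real.exp (-b * x ^ 2))
    (μ := fun _ => volume) (fun _ => integrable_exp_neg_mul_sq hb)
  refine h.congr (Eventually.of_forall fun x => ?_)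
  simp only
  rw [← Real.exp_sum, Finset.mul_sum]

/-- polynomial times Gaussian is bounded by a Gaussian -/
lemma poly_gauss {b K N : ℝ} (hb : 0 < b) (hK : 0 ≤ K) (hN : 0 ≤ N) :
    K * (1 + N) * Real.exp (-b * N) ≤ K * (1 + 2 / b) * Real.exp (-(b / 2) * N) := by
  have h1 : 1 ≤ Real.exp (b / 2 * N) := Real.one_le_exp (by positivity)
  have h2 : b / 2 * N ≤ Real.exp (b / 2 * N) := by
    have := Real.add_one_le_exp (b / 2 * N)
    linarith
  have h3 : N ≤ 2 / b * Real.exp (b / 2 * N) := by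
    calc N = 2 / b * (b / 2 * N) := by field_simp
      _ ≤ 2 / b * Real.exp (b / 2 * N) := by gcongr
  have h4 : 1 + N ≤ (1 + 2 / b) * Real.exp (b / 2 * N) := by nlinarith
  calc K * (1 + N) * Real.exp (-b * N)
      ≤ K * ((1 + 2 / b) * Real.exp (b / 2 * N)) * Real.exp (-b * N) := by gcongr
    _ = K * (1 + 2 / b) * (Real.exp (b / 2 * N) * Real.exp (-b * N)) := by ring
    _ = K * (1 + 2 / b) * Real.exp (-(b / 2) * N) := by
        rw [← Real.exp_add]; congr 2; ring

end H782R3.ESL1
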