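import Mathlib
import Pool.Agent.H782R3.ES.L1a

set_option autoImplicit false

/-! Auxiliary lemmas for task L1 of project H242-ES (written by helper782): differentiation under the
integral sign. -/

open MeasureTheory Set Filter Topology

namespace H782R3.ESL1

section
variable {κ : Type} [Fintype κ]

lemma sq_le_N (x : κ → ℝ) (i : κ) : x i ^ 2 ≤ ∑ i, x i ^ 2 :=
  Finset.single_le_sum (f := fun i => x i ^ 2) (fun i _ => sq_nonneg (x i)) (Finset.mem_univ i)

lemma N_nonneg (x : κ → ℝ) : 0 ≤ ∑ i, x i ^ 2 := Finset.sum_nonneg fun i _ => sq_nonneg (x i)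

lemma lin_bound (g x : κ → ℝ) : |∑ i, g i * x i| ≤ (∑ i, |g i|) * (1 + ∑ i, x i ^ 2) := by
  refine (Finset.abs_sum_le_sum_abs _ _).trans ?_
  rw [Finset.sum_mul]
  refine Finset.sum_le_sum fun i _ => ?_
  rw [abs_mul]
  refine mul_le_mul_of_nonneg_left ?_ (abs_nonneg _)
  have h1 := sq_le_N x i
  have h2 : |x i| ≤ 1 + x i ^ 2 := by
    rw [← sq_abs (x i)]
    nlinarith [sq_nonneg (|x i| - 1), abs_nonneg (x i)]
  linarith

lemma bil_bound (a b x : κ → ℝ) : |(∑ i, a i * x i) * (∑ i, b i * x i)| ≤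
    ((∑ i, |a i|) * ∑ i, |b i|) * ∑ i, x i ^ 2 := by
  rw [Finset.sum_mul_sum]
  refine (Finset.abs_sum_le_sum_abs _ _).trans ?_
  rw [Finset.sum_mul_sum, Finset.sum_mul]
  refine Finset.sum_le_sum fun i _ => ?_
  refine (Finset.abs_sum_le_sum_abs _ _).trans ?_
  rw [Finset.sum_mul]
  refine Finset.sum_le_sum fun k _ => ?_
  have h1 := sq_le_N x i
  have h2 := sq_le_N x k
  have h3 : |x i| * |x k| ≤ ∑ i, x i ^ 2 := by
    have := sq_nonneg (|x i| - |x k|)
    have e1 := sq_abs (x i)
    have e2 := sq_abs (x k)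
    nlinarith
  calc |a i * x i * (b k * x k)| = |a i| * |b k| * (|x i| * |x k|) := by
        rw [abs_mul, abs_mul, abs_mul]; ring
    _ ≤ |a i| * |b k| * ∑ i, x i ^ 2 := by gcongr

/-- differentiation under the integral sign -/
lemma deriv_int (G : Matrix κ κ ℝ) (hG : G.PosDef) (a b : κ → ℝ) (S : Set (κ → ℝ)) :
    HasDerivAt (fun t : ℝ => ∫ x in S, Real.exp (-Real.pi * ((∑ i, ∑ k, x i * G i k * x k) +
      t * ((∑ i, a i * x i) * ∑ i, b i * x i))))
      (∫ x in S, -Real.pi * ((∑ i, a i * x i) * ∑ i, b i * x i) *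
        Real.exp (-Real.pi * ∑ i, ∑ k, x i * G i k * x k)) 0 := by
  obtain ⟨c, hc, hcoer⟩ := coercive G hG
  set M : ℝ := (∑ i, |a i|) * ∑ i, |b i| with hM
  have hM0 : 0 ≤ M := mul_nonneg (Finset.sum_nonneg fun i _ => abs_nonneg _)
    (Finset.sum_nonneg fun i _ => abs_nonneg _)
  set ε : ℝ := c / (2 * (M + 1)) with hε
  have hε0 : 0 < ε := by positivity
  have hεM : ε * M ≤ c / 2 := by
    rw [hε, div_mul_eq_mul_div, div_le_div_iff₀ (by positivity) (by norm_num)]
    nlinarith
  have hpi := Real.pi_pos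
  -- lower bound of the exponent
  have hlow : ∀ (x : κ → ℝ) (t : ℝ), |t| ≤ ε → c / 2 * ∑ i, x i ^ 2 ≤
      (∑ i, ∑ k, x i * G i k * x k) + t * ((∑ i, a i * x i) * ∑ i, b i * x i) := by
    intro x t ht
    have h1 := hcoer x
    have h2 := bil_bound a b x
    have h3 : |t * ((∑ i, a i * x i) * ∑ i, b i * x i)| ≤ c / 2 * ∑ i, x i ^ 2 := by
      rw [abs_mul]
      calc |t| * |(∑ i, a i * x i) * ∑ i, b i * x i| ≤ ε * (M * ∑ i, x i ^ 2) := by gcongr
        _ = (ε * M) * ∑ i, x i ^ 2 := by ring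
        _ ≤ c / 2 * ∑ i, x i ^ 2 := mul_le_mul_of_nonneg_right hεM (N_nonneg x)
    have h4 := neg_abs_le (t * ((∑ i, a i * x i) * ∑ i, b i * x i))
    linarith
  have hbd : ∀ (x : κ → ℝ) (t : ℝ), |t| ≤ ε →
      ‖-Real.pi * ((∑ i, a i * x i) * ∑ i, b i * x i) *
        Real.exp (-Real.pi * ((∑ i, ∑ k, x i * G i k * x k) +
          t * ((∑ i, a i * x i) * ∑ i, b i * x i)))‖ ≤
      Real.pi * M * (1 + 2 / (Real.pi * c / 2)) *
        Real.exp (-(Real.pi * c / 2 / 2) * ∑ i, x i ^ 2) := by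
    intro x t ht
    have h1 := hlow x t ht
    have h2 : Real.exp (-Real.pi * ((∑ i, ∑ k, x i * G i k * x k) +
          t * ((∑ i, a i * x i) * ∑ i, b i * x i))) ≤
        Real.exp (-(Real.pi * c / 2) * ∑ i, x i ^ 2) := by
      apply Real.exp_le_exp.2
      nlinarith
    rw [norm_mul, norm_mul, Real.norm_eq_abs, Real.norm_eq_abs, Real.norm_eq_abs, abs_neg,
      abs_of_pos hpi, abs_of_pos (Real.exp_pos _)]
    have h3 := bil_bound a b x
    have hN := N_nonneg x
    calc Real.pi * |(∑ i, a i * x i) * ∑ i, b i * x i| * _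
        ≤ Real.pi * (M * (1 + ∑ i, x i ^ 2)) * Real.exp (-(Real.pi * c / 2) * ∑ i, x i ^ 2) := by
          refine mul_le_mul (mul_le_mul_of_nonneg_left (h3.trans ?_) hpi.le) h2
            (Real.exp_pos _).le (by positivity)
          exact mul_le_mul_of_nonneg_left (by linarith) hM0
      _ = Real.pi * M * (1 + ∑ i, x i ^ 2) * Real.exp (-(Real.pi * c / 2) * ∑ i, x i ^ 2) := by ring
      _ ≤ _ := poly_gauss (by positivity) (by positivity) hN
  have key := hasDerivAt_integral_of_dominated_loc_of_deriv_le (𝕜 := ℝ) (μ := volume.restrict S)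
    (F := fun (t : ℝ) (x : κ → ℝ) => Real.exp (-Real.pi * ((∑ i, ∑ k, x i * G i k * x k) +
      t * ((∑ i, a i * x i) * ∑ i, b i * x i))))
    (F' := fun (t : ℝ) (x : κ → ℝ) => -Real.pi * ((∑ i, a i * x i) * ∑ i, b i * x i) *
        Real.exp (-Real.pi * ((∑ i, ∑ k, x i * G i k * x k) +
          t * ((∑ i, a i * x i) * ∑ i, b i * x i))))
    (bound := fun x => Real.pi * M * (1 + 2 / (Real.pi * c / 2)) *
        Real.exp (-(Real.pi * c / 2 / 2) * ∑ i, x i ^ 2))
    (x₀ := (0:ℝ)) (s := Metric.closedBall (0:ℝ) ε) (Metric.closedBall_mem_nhds 0 hε0)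
    (Eventually.of_forall fun t => by
      apply Continuous.aestronglyMeasurable
      fun_prop)
    (by
      have hb : 0 < Real.pi * c / 2 := by positivity
      refine Integrable.mono' ((integrable_gauss (κ := κ) hb).restrict (s := S)) ?_ ?_
      · apply Continuous.aestronglyMeasurable
        fun_prop
      · refine Eventually.of_forall fun x => ?_
        rw [Real.norm_eq_abs, abs_of_pos (Real.exp_pos _)]
        apply Real.exp_le_exp.2
        have := hlow x 0 (by simpa using hε0.le)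
        nlinarith)
    (by
      apply Continuous.aestronglyMeasurable
      fun_prop)
    (Eventually.of_forall fun x t ht => hbd x t (by simpa using ht))
    (((integrable_gauss (κ := κ) (b := Real.pi * c / 2 / 2) (by positivity)).const_mul _).restrict)
    (Eventually.of_forall fun x t _ => by
      have h1 : HasDerivAt (fun t : ℝ => -Real.pi * ((∑ i, ∑ k, x i * G i k * x k) +
          t * ((∑ i, a i * x i) * ∑ i, b i * x i)))
          (-Real.pi * ((∑ i, a i * x i) * ∑ i, b i * x i)) t := by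
        have := (((hasDerivAt_id t).mul_const ((∑ i, a i * x i) * ∑ i, b i * x i)).const_add
          (∑ i, ∑ k, x i * G i k * x k)).const_mul (-Real.pi)
        simpa using this
      have h2 := h1.exp
      exact h2.congr_deriv (mul_comm _ _))
  have h := key.2
  simp only [zero_mul, add_zero] at h
  exact h

end

end H782R3.ESL1
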