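import Mathlib
import Pool.Agent.H782R3.ES.L1b
import Pool.Agent.H242R3.ES.Stmts

set_option autoImplicit false

/-! Auxiliary lemmas for task L1 of project H242-ES (written by helper782): integration by parts on the
orthant. -/

open MeasureTheory Set Filter Topology
open scoped Classical

namespace H782R3.ESL1

open Pool.Agent.H242R3.ES

section
variable {ι : Type}

/-- index of the face -/
def up (s : Finset ι) (j : s) (i : (s.erase (j : ι) : Finset ι)) : s :=
  ⟨i, Finset.mem_of_mem_erase i.2⟩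

/-- insertion of the coordinate `j` -/
noncomputable def Phi (s : Finset ι) (j : s)
    (z : ((s.erase (j : ι) : Finset ι) → ℝ) × ℝ) : s → ℝ := fun i =>
  if h : (i : ι) = j then z.2 else z.1 ⟨i, Finset.mem_erase.2 ⟨h, i.2⟩⟩

lemma prod_split {M : Type} [CommMonoid M] (s : Finset ι) (j : s) (f : s → M) :
    ∏ i, f i = (∏ i : (s.erase (j : ι) : Finset ι), f (up s j i)) * f j := by
  let F : ι → M := fun i => if h : i ∈ s then f ⟨i, h⟩ else 1
  have h1 : ∏ i, f i = ∏ i ∈ s, F i := by
    refine Eq.trans (Finset.prod_congr rfl fun i _ => ?_) (Finset.prod_coe_sort s F)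
    simp [F]
  have h2 : ∏ i : (s.erase (j : ι) : Finset ι), f (up s j i) = ∏ i ∈ s.erase (j : ι), F i := by
    refine Eq.trans (Finset.prod_congr rfl fun i _ => ?_) (Finset.prod_coe_sort (s.erase (j : ι)) F)
    have : (i : ι) ∈ s := Finset.mem_of_mem_erase i.2
    simp [F, up, this]
  have h3 : f j = F j := by simp [F]
  rw [h1, h2, h3, Finset.prod_erase_mul _ _ j.2]

lemma sum_split {M : Type} [AddCommMonoid M] (s : Finset ι) (j : s) (f : s → M) :
    ∑ i, f i = (∑ i : (s.erase (j : ι) : Finset ι), f (up s j i)) + f j := by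
  let F : ι → M := fun i => if h : i ∈ s then f ⟨i, h⟩ else 0
  have h1 : ∑ i, f i = ∑ i ∈ s, F i := by
    refine Eq.trans (Finset.sum_congr rfl fun i _ => ?_) (Finset.sum_coe_sort s F)
    simp [F]
  have h2 : ∑ i : (s.erase (j : ι) : Finset ι), f (up s j i) = ∑ i ∈ s.erase (j : ι), F i := by
    refine Eq.trans (Finset.sum_congr rfl fun i _ => ?_) (Finset.sum_coe_sort (s.erase (j : ι)) F)
    have : (i : ι) ∈ s := Finset.mem_of_mem_erase i.2
    simp [F, up, this]
  have h3 : f j = F j := by simp [F]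
  rw [h1, h2, h3, Finset.sum_erase_add _ _ j.2]

lemma Phi_up (s : Finset ι) (j : s) (z : ((s.erase (j : ι) : Finset ι) → ℝ) × ℝ)
    (i : (s.erase (j : ι) : Finset ι)) : Phi s j z (up s j i) = z.1 i := by
  unfold Phi up
  rw [dif_neg (Finset.ne_of_mem_erase i.2)]

lemma Phi_self (s : Finset ι) (j : s) (z : ((s.erase (j : ι) : Finset ι) → ℝ) × ℝ) :
    Phi s j z j = z.2 := by
  unfold Phi
  rw [dif_pos rfl]

lemma Phi_cases (s : Finset ι) (j : s) (i : s) : i = j ∨ ∃ k, i = up s j k := by
  by_cases h : (i : ι) = j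
  · left; exact Subtype.ext h
  · right; exact ⟨⟨i, Finset.mem_erase.2 ⟨h, i.2⟩⟩, rfl⟩

lemma measurable_Phi (s : Finset ι) (j : s) : Measurable (Phi s j) := by
  rw [measurable_pi_iff]
  intro i
  rcases Phi_cases s j i with rfl | ⟨k, rfl⟩
  · simp only [Phi_self]
    exact measurable_snd
  · simp only [Phi_up]
    exact (measurable_pi_apply k).comp measurable_fst

lemma mp_Phi (s : Finset ι) (j : s) : MeasurePreserving (Phi s j)
    ((volume : Measure ((s.erase (j : ι) : Finset ι) → ℝ)).prod (volume : Measure ℝ)) volume := by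
  refine ⟨measurable_Phi s j, ?_⟩
  rw [volume_pi]
  symm
  refine Measure.pi_eq fun S hS => ?_
  rw [Measure.map_apply (measurable_Phi s j) (MeasurableSet.univ_pi hS)]
  have e : Phi s j ⁻¹' (univ.pi S) = (univ.pi fun i => S (up s j i)) ×ˢ S j := by
    ext z
    simp only [mem_preimage, Set.mem_univ_pi, mem_prod]
    constructor
    · intro h
      refine ⟨fun i => ?_, ?_⟩
      · have := h (up s j i)
        rwa [Phi_up] at this
      · have := h j
        rwa [Phi_self] at this
    · rintro ⟨h1, h2⟩ i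
      rcases Phi_cases s j i with rfl | ⟨k, rfl⟩
      · rw [Phi_self]; exact h2
      · rw [Phi_up]; exact h1 k
  rw [e, Measure.prod_prod, Measure.pi_pi, prod_split s j fun i => volume (S i)]

lemma pre_orth (s : Finset ι) (j : s) : Phi s j ⁻¹' (orth s) = (orth (s.erase (j : ι))) ×ˢ Ici 0 := by
  ext z
  simp only [mem_preimage, orth, Set.mem_ofPred_eq, mem_prod, mem_Ici]
  constructor
  · intro h
    refine ⟨fun i => ?_, ?_⟩
    · have := h (up s j i)
      rwa [Phi_up] at this
    · have := h j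
      rwa [Phi_self] at this
  · rintro ⟨h1, h2⟩ i
    rcases Phi_cases s j i with rfl | ⟨k, rfl⟩
    · rw [Phi_self]; exact h2
    · rw [Phi_up]; exact h1 k

lemma measurableSet_orth (s : Finset ι) : MeasurableSet (orth s) := by
  have : orth s = ⋂ i : s, {x : s → ℝ | 0 ≤ x i} := by
    ext x; simp [orth]
  rw [this]
  exact MeasurableSet.iInter fun i => measurableSet_le measurable_const (measurable_pi_apply i)

lemma hasDerivAt_Phi (s : Finset ι) (j : s) (y : (s.erase (j : ι) : Finset ι) → ℝ) (u : ℝ) (i : s) :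
    HasDerivAt (fun u : ℝ => Phi s j (y, u) i) (if i = j then 1 else 0) u := by
  rcases Phi_cases s j i with rfl | ⟨k, rfl⟩
  · simp only [Phi_self, if_true]
    exact hasDerivAt_id u
  · have hne : up s j k ≠ j := by
      intro h
      exact (Finset.ne_of_mem_erase k.2) (congrArg Subtype.val h)
    simp only [Phi_up, if_neg hne]
    exact hasDerivAt_const u (y k)

/-- the derivative of the quadratic form -/
lemma hasDerivAt_q (s : Finset ι) (j : s) (F : ι → ℝ) (y : (s.erase (j : ι) : Finset ι) → ℝ) (u : ℝ) :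
    HasDerivAt (fun u : ℝ => ∑ i : s, ∑ k : s, Phi s j (y, u) i * gm F i k * Phi s j (y, u) k)
      (2 * ∑ k : s, gm F j k * Phi s j (y, u) k) u := by
  have h : HasDerivAt (fun u : ℝ => ∑ i : s, ∑ k : s, Phi s j (y, u) i * gm F i k * Phi s j (y, u) k)
      (∑ i : s, ∑ k : s, ((if i = j then 1 else 0) * gm F i k * Phi s j (y, u) k +
        Phi s j (y, u) i * gm F i k * (if k = j then 1 else 0))) u := by
    refine HasDerivAt.fun_sum fun i _ => HasDerivAt.fun_sum fun k _ => ?_
    exact ((hasDerivAt_Phi s j y u i).mul_const (gm F i k)).mul (hasDerivAt_Phi s j y u k)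
  refine h.congr_deriv ?_
  have hsymm : ∀ i k : ι, gm F i k = gm F k i := by
    intro i k
    unfold gm
    by_cases h : i = k
    · subst h; rfl
    · rw [if_neg h, if_neg (Ne.symm h), add_comm (F i)]
  simp only [Finset.sum_add_distrib]
  have e1 : ∑ i : s, ∑ k : s, (if i = j then (1:ℝ) else 0) * gm F i k * Phi s j (y, u) k =
      ∑ k : s, gm F j k * Phi s j (y, u) k := by
    rw [Finset.sum_eq_single j]
    · simp
    · intro i _ hi
      simp [hi]
    · intro h; exact absurd (Finset.mem_univ _) h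
  have e2 : ∑ i : s, ∑ k : s, Phi s j (y, u) i * gm F i k * (if k = j then (1:ℝ) else 0) =
      ∑ k : s, gm F j k * Phi s j (y, u) k := by
    refine Finset.sum_congr rfl fun i _ => ?_
    rw [Finset.sum_eq_single j]
    · simp only [if_true, mul_one]
      rw [hsymm i j, mul_comm]
    · intro k _ hk
      simp [hk]
    · intro h; exact absurd (Finset.mem_univ _) h
  rw [e1, e2]; ring

lemma hasDerivAt_g (s : Finset ι) (j : s) (g : ι → ℝ) (y : (s.erase (j : ι) : Finset ι) → ℝ) (u : ℝ) :
    HasDerivAt (fun u : ℝ => ∑ i : s, g i * Phi s j (y, u) i) (g j) u := by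
  have h : HasDerivAt (fun u : ℝ => ∑ i : s, g i * Phi s j (y, u) i)
      (∑ i : s, g i * (if i = j then 1 else 0)) u :=
    HasDerivAt.fun_sum fun i _ => (hasDerivAt_Phi s j y u i).const_mul (g i)
  refine h.congr_deriv ?_
  rw [Finset.sum_eq_single j]
  · simp
  · intro i _ hi
    simp [hi]
  · intro h; exact absurd (Finset.mem_univ _) h

/-- the integrand -/
noncomputable def fj (s : Finset ι) (j : s) (F g : ι → ℝ) (x : s → ℝ) : ℝ :=
  (g j - 2 * Real.pi * ((∑ i : s, g i * x i) * ∑ k : s, gm F j k * x k)) * ex s F x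

lemma hasDerivAt_h (s : Finset ι) (j : s) (F g : ι → ℝ) (y : (s.erase (j : ι) : Finset ι) → ℝ) (u : ℝ) :
    HasDerivAt (fun u : ℝ => (∑ i : s, g i * Phi s j (y, u) i) * ex s F (Phi s j (y, u)))
      (fj s j F g (Phi s j (y, u))) u := by
  have h1 := ((hasDerivAt_q s j F y u).const_mul (-Real.pi)).exp
  have h2 := (hasDerivAt_g s j g y u).fun_mul h1
  refine h2.congr_deriv ?_
  unfold fj ex
  ring

lemma gint_bound (s : Finset ι) (F g : ι → ℝ) {c : ℝ} (hc : 0 < c)
    (hcoer : ∀ x : s → ℝ, c * ∑ i, x i ^ 2 ≤ ∑ i : s, ∑ k : s, x i * gm F i k * x k) (x : s → ℝ) :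
    |(∑ i : s, g i * x i) * ex s F x| ≤ (∑ i : s, |g i|) * (1 + 2 / (Real.pi * c)) *
      Real.exp (-(Real.pi * c / 2) * ∑ i, x i ^ 2) := by
  have hpi := Real.pi_pos
  have h2 : ex s F x ≤ Real.exp (-(Real.pi * c) * ∑ i, x i ^ 2) := by
    unfold ex
    apply Real.exp_le_exp.2
    have := hcoer x
    nlinarith
  have h0 : 0 < ex s F x := Real.exp_pos _
  have hS : 0 ≤ ∑ i : s, |g i| := Finset.sum_nonneg fun i _ => abs_nonneg _
  rw [abs_mul, abs_of_pos h0]
  calc |∑ i : s, g i * x i| * ex s F x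
      ≤ ((∑ i : s, |g i|) * (1 + ∑ i, x i ^ 2)) * Real.exp (-(Real.pi * c) * ∑ i, x i ^ 2) := by
        have h3 := lin_bound (fun i : s => g i) x
        have hN := N_nonneg x
        exact mul_le_mul h3 h2 h0.le (by positivity)
    _ ≤ _ := poly_gauss (by positivity) hS (N_nonneg x)

lemma integrable_fj (s : Finset ι) (j : s) (F g : ι → ℝ) (hG : (GM s F).PosDef) :
    Integrable (fj s j F g) := by
  obtain ⟨c, hc, hcoer⟩ := coercive (GM s F) hG
  have hpi := Real.pi_pos
  set M : ℝ := (∑ i : s, |g i|) * ∑ k : s, |gm F j k| with hM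
  have hM0 : 0 ≤ M := mul_nonneg (Finset.sum_nonneg fun i _ => abs_nonneg _)
    (Finset.sum_nonneg fun i _ => abs_nonneg _)
  refine Integrable.mono' ((integrable_gauss (κ := s) (b := Real.pi * c / 2)
    (by positivity)).const_mul ((|g j| + 2 * Real.pi * M) * (1 + 2 / (Real.pi * c)))) ?_ ?_
  · apply Continuous.aestronglyMeasurable
    unfold fj ex
    fun_prop
  · refine Eventually.of_forall fun x => ?_
    have h2 : ex s F x ≤ Real.exp (-(Real.pi * c) * ∑ i, x i ^ 2) := by
      unfold ex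
      apply Real.exp_le_exp.2
      have := hcoer x
      have e : ∑ i : s, ∑ k : s, x i * GM s F i k * x k = ∑ i : s, ∑ k : s, x i * gm F i k * x k := rfl
      rw [e] at this
      nlinarith
    have h0 : 0 < ex s F x := Real.exp_pos _
    have hN := N_nonneg x
    have h3 := bil_bound (fun i : s => g i) (fun k : s => gm F j k) x
    have h4 : |g j - 2 * Real.pi * ((∑ i : s, g i * x i) * ∑ k : s, gm F j k * x k)| ≤
        (|g j| + 2 * Real.pi * M) * (1 + ∑ i, x i ^ 2) := by
      refine (abs_sub _ _).trans ?_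
      rw [abs_mul (2 * Real.pi), abs_of_pos (show 0 < 2 * Real.pi by positivity)]
      have h5 : 2 * Real.pi * |(∑ i : s, g i * x i) * ∑ k : s, gm F j k * x k| ≤
          2 * Real.pi * (M * ∑ i, x i ^ 2) := mul_le_mul_of_nonneg_left h3 (by positivity)
      nlinarith [abs_nonneg (g j), mul_nonneg (abs_nonneg (g j)) hN, mul_nonneg hpi.le hM0]
    show ‖(g j - 2 * Real.pi * ((∑ i : s, g i * x i) * ∑ k : s, gm F j k * x k)) * ex s F x‖ ≤ _
    rw [norm_mul, Real.norm_eq_abs, Real.norm_eq_abs, abs_of_pos h0]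
    calc _ ≤ ((|g j| + 2 * Real.pi * M) * (1 + ∑ i, x i ^ 2)) *
          Real.exp (-(Real.pi * c) * ∑ i, x i ^ 2) := mul_le_mul h4 h2 h0.le (by positivity)
      _ ≤ _ := poly_gauss (by positivity) (by positivity) hN

end

end H782R3.ESL1
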