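import Mathlib
import Pool.Agent.H782R3.ES.L1c

set_option autoImplicit false

/-! Task L1 of project H242-ES (written by helper782). -/

open MeasureTheory Set Filter Topology
open scoped Classical

namespace H782R3.ESL1

open Pool.Agent.H242R3.ES

section
variable {ι : Type}

lemma integrable_ex (s : Finset ι) (F : ι → ℝ) (hG : (GM s F).PosDef) : Integrable (ex s F) := by
  obtain ⟨c, hc, hcoer⟩ := coercive (GM s F) hG
  have hpi := Real.pi_pos
  refine Integrable.mono' (integrable_gauss (κ := s) (b := Real.pi * c) (by positivity)) ?_ ?_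
  · apply Continuous.aestronglyMeasurable
    unfold ex
    fun_prop
  · refine Eventually.of_forall fun x => ?_
    have h0 : 0 < ex s F x := Real.exp_pos _
    rw [Real.norm_eq_abs, abs_of_pos h0]
    unfold ex
    apply Real.exp_le_exp.2
    have := hcoer x
    have e : ∑ i : s, ∑ k : s, x i * GM s F i k * x k = ∑ i : s, ∑ k : s, x i * gm F i k * x k := rfl
    rw [e] at this
    nlinarith

lemma h_zero (s : Finset ι) (j : s) (F g : ι → ℝ) (y : (s.erase (j : ι) : Finset ι) → ℝ) :
    (∑ i : s, g i * Phi s j (y, 0) i) * ex s F (Phi s j (y, 0)) =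
      (∑ i : (s.erase (j : ι) : Finset ι), g i * y i) * ex (s.erase (j : ι)) F y := by
  have e1 : ∑ i : s, g i * Phi s j (y, 0) i = ∑ i : (s.erase (j : ι) : Finset ι), g i * y i := by
    rw [sum_split s j]
    simp only [Phi_up, Phi_self, mul_zero, add_zero]
    rfl
  have e2 : ∑ i : s, ∑ k : s, Phi s j (y, 0) i * gm F i k * Phi s j (y, 0) k =
      ∑ i : (s.erase (j : ι) : Finset ι), ∑ k : (s.erase (j : ι) : Finset ι), y i * gm F i k * y k := by
    rw [sum_split s j]
    simp only [Phi_up, Phi_self, zero_mul, Finset.sum_const_zero, add_zero]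
    refine Finset.sum_congr rfl fun i _ => ?_
    rw [sum_split s j]
    simp only [Phi_up, Phi_self, mul_zero, add_zero]
    rfl
  rw [e1]
  unfold ex
  rw [e2]

lemma ibp (s : Finset ι) (j : s) (F g : ι → ℝ) (hG : (GM s F).PosDef) :
    ∫ x in orth s, fj s j F g x = - II (s.erase (j : ι)) F g := by
  have hint := integrable_fj s j F g hG
  have hmp := mp_Phi s j
  have hcont : Continuous (fj s j F g) := by
    unfold fj ex
    fun_prop
  have h1 := setIntegral_map (μ := (volume : Measure ((s.erase (j : ι) : Finset ι) → ℝ)).prod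
    (volume : Measure ℝ)) (g := Phi s j) (f := fj s j F g) (measurableSet_orth s)
    hcont.aestronglyMeasurable hmp.measurable.aemeasurable
  rw [hmp.map_eq, pre_orth] at h1
  have hint2 : Integrable (fun z => fj s j F g (Phi s j z))
      ((volume : Measure ((s.erase (j : ι) : Finset ι) → ℝ)).prod (volume : Measure ℝ)) :=
    (hmp.integrable_comp hcont.aestronglyMeasurable).2 hint
  rw [h1, setIntegral_prod _ hint2.integrableOn]
  have hae := hint2.prod_right_ae
  obtain ⟨c, hc, hcoer⟩ := coercive (GM s F) hG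
  have hpi := Real.pi_pos
  have hinner : ∀ᵐ y ∂(volume : Measure ((s.erase (j : ι) : Finset ι) → ℝ)),
      ∫ u in Ici (0:ℝ), fj s j F g (Phi s j (y, u)) =
        - ((∑ i : (s.erase (j : ι) : Finset ι), g i * y i) * ex (s.erase (j : ι)) F y) := by
    filter_upwards [hae] with y hy
    rw [integral_Ici_eq_integral_Ioi,
      integral_Ioi_of_hasDerivAt_of_tendsto' (f := fun u : ℝ => (∑ i : s, g i * Phi s j (y, u) i) *
        ex s F (Phi s j (y, u))) (m := 0) (fun u _ => hasDerivAt_h s j F g y u) hy.integrableOn ?_,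
      zero_sub, h_zero]
    have hb : 0 < Real.pi * c / 2 := by positivity
    have hlim : Tendsto (fun u : ℝ => (∑ i : s, |g i|) * (1 + 2 / (Real.pi * c)) *
        Real.exp (-(Real.pi * c / 2) * u ^ 2)) atTop (𝓝 0) := by
      have h2 : Tendsto (fun u : ℝ => -(Real.pi * c / 2) * u ^ 2) atTop atBot :=
        (tendsto_pow_atTop two_ne_zero).const_mul_atTop_of_neg (by linarith)
      have h3 := (Real.tendsto_exp_atBot.comp h2).const_mul
        ((∑ i : s, |g i|) * (1 + 2 / (Real.pi * c)))
      rw [mul_zero] at h3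
      exact h3
    refine squeeze_zero_norm (fun u => ?_) hlim
    rw [Real.norm_eq_abs]
    refine (gint_bound s F g hc hcoer _).trans ?_
    refine mul_le_mul_of_nonneg_left ?_ ?_
    · apply Real.exp_le_exp.2
      have h4 := sq_le_N (Phi s j (y, u)) j
      rw [Phi_self] at h4
      nlinarith
    · have : 0 ≤ ∑ i : s, |g i| := Finset.sum_nonneg fun i _ => abs_nonneg _
      positivity
  have h5 : ∫ y in orth (s.erase (j : ι)), ∫ u in Ici (0:ℝ), fj s j F g (Phi s j (y, u)) =
      ∫ y in orth (s.erase (j : ι)), -((∑ i : (s.erase (j : ι) : Finset ι), g i * y i) *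
        ex (s.erase (j : ι)) F y) :=
    integral_congr_ae (ae_restrict_of_ae hinner)
  rw [h5, integral_neg]
  rfl

end

theorem t : TaskL1 := by
  intro ι s F g hG
  have hsymm : ∀ i k : ι, gm F i k = gm F k i := by
    intro i k
    unfold gm
    by_cases h : i = k
    · subst h; rfl
    · rw [if_neg h, if_neg (Ne.symm h), add_comm (F i)]
  set G := GM s F with hGdef
  set H : Matrix s s ℝ := fun i k => (g i + g k) / 2 with hH
  have hdetpos : 0 < G.det := hG.det_pos
  have hGT : G.transpose = G := by
    ext i k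
    exact hsymm k i
  have hGinvT : (G⁻¹).transpose = G⁻¹ := by
    rw [Matrix.transpose_nonsing_inv, hGT]
  -- the vector c
  set c : s → ℝ := G⁻¹.mulVec (fun _ => 1) with hc
  have hGc : G.mulVec c = fun _ => 1 := by
    rw [hc, Matrix.mulVec_mulVec, Matrix.mul_nonsing_inv _ hdetpos.ne'.isUnit, Matrix.one_mulVec]
  have hcG : ∀ x : s → ℝ, ∑ j : s, c j * ∑ k : s, gm F j k * x k = ∑ k : s, x k := by
    intro x
    simp only [Finset.mul_sum]
    rw [Finset.sum_comm]
    refine Finset.sum_congr rfl fun k _ => ?_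
    have h1 := congrFun hGc k
    have h2 : ∑ j : s, gm F k j * c j = 1 := h1
    calc ∑ j : s, c j * (gm F j k * x k) = (∑ j : s, gm F k j * c j) * x k := by
          rw [Finset.sum_mul]
          refine Finset.sum_congr rfl fun j _ => ?_
          rw [hsymm k j]; ring
      _ = x k := by rw [h2, one_mul]
  have htr : (G⁻¹ * H).trace = ∑ j : s, c j * g j := by
    have e1 : (G⁻¹ * H).trace = ∑ i : s, ∑ k : s, G⁻¹ i k * ((g k + g i) / 2) := by
      show ∑ i : s, (G⁻¹ * H) i i = _
      refine Finset.sum_congr rfl fun i _ => ?_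
      rw [Matrix.mul_apply]
    have e2 : ∑ j : s, c j * g j = ∑ i : s, ∑ k : s, G⁻¹ i k * g i := by
      refine Finset.sum_congr rfl fun i _ => ?_
      rw [hc]
      simp only [Matrix.mulVec, dotProduct, mul_one, Finset.sum_mul]
    have e3 : ∑ i : s, ∑ k : s, G⁻¹ i k * g k = ∑ i : s, ∑ k : s, G⁻¹ i k * g i := by
      rw [Finset.sum_comm]
      refine Finset.sum_congr rfl fun i _ => Finset.sum_congr rfl fun k _ => ?_
      have : G⁻¹ k i = G⁻¹ i k := congrFun (congrFun hGinvT i) k
      rw [this]
    rw [e1, e2]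
    have e4 : ∑ i : s, ∑ k : s, G⁻¹ i k * ((g k + g i) / 2) =
        (1 / 2) * (∑ i : s, ∑ k : s, G⁻¹ i k * g k) + (1 / 2) * ∑ i : s, ∑ k : s, G⁻¹ i k * g i := by
      simp only [Finset.mul_sum, ← Finset.sum_add_distrib]
      refine Finset.sum_congr rfl fun i _ => Finset.sum_congr rfl fun k _ => ?_
      ring
    rw [e4, e3]; ring
  -- the one parameter family
  have hGt : ∀ t : ℝ, GM s (fun i => F i + t * g i) = G + t • H := by
    intro t
    ext i k
    show gm (fun i => F i + t * g i) i k = gm F i k + t * ((g i + g k) / 2)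
    unfold gm
    ring
  have hext : ∀ (t : ℝ) (x : s → ℝ), ex s (fun i => F i + t * g i) x =
      Real.exp (-Real.pi * ((∑ i : s, ∑ k : s, x i * G i k * x k) +
        t * ((∑ i : s, g i * x i) * ∑ i : s, (1:ℝ) * x i))) := by
    intro t x
    unfold ex
    congr 2
    have e1 : (∑ i : s, g i * x i) * ∑ i : s, (1:ℝ) * x i =
        ∑ i : s, ∑ k : s, x i * ((g i + g k) / 2) * x k := by
      have a1 : (∑ i : s, g i * x i) * ∑ i : s, (1:ℝ) * x i = ∑ i : s, ∑ k : s, g i * x i * x k := by
        rw [Finset.sum_mul_sum]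
        simp only [one_mul]
      have a2 : (∑ i : s, g i * x i) * ∑ i : s, (1:ℝ) * x i = ∑ i : s, ∑ k : s, g k * x k * x i := by
        rw [a1, Finset.sum_comm]
      have a3 : ∑ i : s, ∑ k : s, x i * ((g i + g k) / 2) * x k =
          (1 / 2) * (∑ i : s, ∑ k : s, g i * x i * x k) + (1 / 2) * ∑ i : s, ∑ k : s, g k * x k * x i := by
        simp only [Finset.mul_sum, ← Finset.sum_add_distrib]
        refine Finset.sum_congr rfl fun i _ => Finset.sum_congr rfl fun k _ => ?_
        ring
      rw [a3, ← a1, ← a2]; ring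
    rw [e1, Finset.mul_sum, ← Finset.sum_add_distrib]
    refine Finset.sum_congr rfl fun i _ => ?_
    rw [Finset.mul_sum, ← Finset.sum_add_distrib]
    refine Finset.sum_congr rfl fun k _ => ?_
    have : gm (fun i => F i + t * g i) i k = G i k + t * ((g i + g k) / 2) := by
      show gm (fun i => F i + t * g i) i k = gm F i k + t * ((g i + g k) / 2)
      unfold gm
      ring
    rw [this]; ring
  -- derivatives
  have hd1 : HasDerivAt (fun t : ℝ => Real.sqrt (GM s (fun i => F i + t * g i)).det)
      (1 / 2 * Real.sqrt G.det * ∑ j : s, c j * g j) 0 := by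
    have h1 := det_deriv G H hdetpos.ne'.isUnit
    have h2 := h1.sqrt (by rw [zero_smul, add_zero]; exact hdetpos.ne')
    have e : (fun t : ℝ => Real.sqrt (GM s (fun i => F i + t * g i)).det) =
        fun t : ℝ => Real.sqrt (G + t • H).det := by
      funext t; rw [hGt]
    rw [e]
    refine h2.congr_deriv ?_
    rw [zero_smul, add_zero, htr]
    have h3 : Real.sqrt G.det ≠ 0 := (Real.sqrt_pos.2 hdetpos).ne'
    have h4 : Real.sqrt G.det * Real.sqrt G.det = G.det := Real.mul_self_sqrt hdetpos.le
    rw [div_eq_iff (by positivity)]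
    linear_combination (-(∑ j : s, c j * g j)) * h4
  have hd2 : HasDerivAt (fun t : ℝ => ∫ x in orth s, ex s (fun i => F i + t * g i) x)
      (∫ x in orth s, -Real.pi * ((∑ i : s, g i * x i) * ∑ i : s, (1:ℝ) * x i) *
        Real.exp (-Real.pi * ∑ i : s, ∑ k : s, x i * G i k * x k)) 0 := by
    have h1 := deriv_int G hG (fun i : s => g i) (fun _ : s => (1:ℝ)) (orth s)
    have e : (fun t : ℝ => ∫ x in orth s, ex s (fun i => F i + t * g i) x) =
        fun t : ℝ => ∫ x in orth s, Real.exp (-Real.pi * ((∑ i : s, ∑ k : s, x i * G i k * x k) +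
        t * ((∑ i : s, g i * x i) * ∑ i : s, (1:ℝ) * x i))) := by
      funext t
      refine integral_congr_ae (Eventually.of_forall fun x => ?_)
      exact hext t x
    rw [e]
    exact h1
  -- the value of the second derivative
  have hA : ∫ x in orth s, -Real.pi * ((∑ i : s, g i * x i) * ∑ i : s, (1:ℝ) * x i) *
        Real.exp (-Real.pi * ∑ i : s, ∑ k : s, x i * G i k * x k) =
      1 / 2 * ((∑ j : s, c j * (- II (s.erase (j : ι)) F g)) -
        (∑ j : s, c j * g j) * ∫ x in orth s, ex s F x) := by
    have e : ∀ x : s → ℝ, -Real.pi * ((∑ i : s, g i * x i) * ∑ i : s, (1:ℝ) * x i) *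
        Real.exp (-Real.pi * ∑ i : s, ∑ k : s, x i * G i k * x k) =
        1 / 2 * ((∑ j : s, c j * fj s j F g x) - (∑ j : s, c j * g j) * ex s F x) := by
      intro x
      have e1 : Real.exp (-Real.pi * ∑ i : s, ∑ k : s, x i * G i k * x k) = ex s F x := rfl
      have e2 : ∑ j : s, c j * fj s j F g x = ((∑ j : s, c j * g j) -
          2 * Real.pi * (∑ i : s, g i * x i) * ∑ j : s, c j * ∑ k : s, gm F j k * x k) * ex s F x := by
        unfold fj
        rw [Finset.mul_sum, ← Finset.sum_sub_distrib, Finset.sum_mul]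
        refine Finset.sum_congr rfl fun j _ => ?_
        ring
      rw [e1, e2, hcG]
      simp only [one_mul]
      ring
    have hex := integrable_ex s F hG
    rw [integral_congr_ae (Eventually.of_forall e), integral_const_mul, integral_sub, integral_finsetSum,
      integral_const_mul]
    · congr 2
      refine Finset.sum_congr rfl fun j _ => ?_
      rw [integral_const_mul, ibp s j F g hG]
    · intro j _
      exact ((integrable_fj s j F g hG).restrict).const_mul _
    · exact integrable_finsetSum _ fun j _ => ((integrable_fj s j F g hG).restrict).const_mul _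
    · exact (hex.restrict).const_mul _
  have hfin := hd1.fun_mul hd2
  have e0 : (fun i => F i + 0 * g i) = F := by
    funext i; ring
  simp only [e0] at hfin
  refine hfin.congr_deriv ?_
  rw [hA]
  have hk : ∑ j : s, kap s F j * II (s.erase (j : ι)) F g =
      Real.sqrt G.det * ∑ j : s, c j * II (s.erase (j : ι)) F g := by
    rw [Finset.mul_sum]
    refine Finset.sum_congr rfl fun j _ => ?_
    show Real.sqrt G.det * c j * II (s.erase (j : ι)) F g = _
    ring
  rw [hk]
  simp only [mul_neg, Finset.sum_neg_distrib]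
  ring

end H782R3.ESL1
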